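import Pool.Agent.Lib.MP_a5a405_co.G.Final
import Pool.Agent.FS.H31Q.Real

namespace Pool.Agent.Variants.MP_a5a405_co.PositiveCriterion

/-- The system a_i x_i + b_i y_i = c_i w_i z_i ^ n is partition regular over the positive integers
if and only if, for every prime p, some rational number that is an n-th power in the p-adic numbers
lies in the set of ratios of every equation with a_i + b_i different from zero, and some positive
rational number lies in all these sets. -/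
theorem result (k : ℕ) (a b c : Fin k → ℤ) (n : ℕ) (habc : ∀ i, a i ≠ 0 ∧ b i ≠ 0 ∧ c i ≠ 0)
    (hn : 1 ≤ n) :
    (∀ (r : ℕ) (χ : ℕ → Fin r), ∃ (x y w z : Fin k → ℕ) (col : Fin r), ∀ i,
      0 < x i ∧ 0 < y i ∧ 0 < w i ∧ 0 < z i ∧
      a i * (x i : ℤ) + b i * (y i : ℤ) = c i * (w i : ℤ) * (z i : ℤ) ^ n ∧
      χ (x i) = col ∧ χ (y i) = col ∧ χ (w i) = col ∧ χ (z i) = col) ↔
    ((∀ (p : ℕ) [Fact p.Prime], ∃ q : ℚ, (∃ t : ℚ_[p], t ^ n = q) ∧ ∀ i, a i + b i ≠ 0 →
      (q = (a i : ℚ) / c i ∨ q = (b i : ℚ) / c i ∨ q = ((a i : ℚ) + b i) / c i)) ∧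
    ∃ q : ℚ, 0 < q ∧ ∀ i, a i + b i ≠ 0 →
      (q = (a i : ℚ) / c i ∨ q = (b i : ℚ) / c i ∨ q = ((a i : ℚ) + b i) / c i)) := by
  constructor
  · intro h
    refine ⟨fun p _ => ?_, ?_⟩
    · obtain ⟨q, h1, h2⟩ := Pool.Agent.Lib.MP_a5a405_co.PR.G.necessary
        (ι := {i // a i + b i ≠ 0}) hn (fun i => a i) (fun i => b i) (fun i => c i)
        (fun i => (habc i).1) (fun i => (habc i).2.1) (fun i => (habc i).2.2) (fun i => i.2) p
        fun r χ => by
          obtain ⟨x, y, w, z, col, h1⟩ := h r fun m => χ m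
          refine ⟨fun i => x i, fun i => y i, fun i => w i, fun i => z i, col, fun i => ?_⟩
          obtain ⟨p1, p2, p3, p4, p5⟩ := h1 i
          exact ⟨Int.natCast_ne_zero.2 p1.ne', Int.natCast_ne_zero.2 p2.ne',
            Int.natCast_ne_zero.2 p3.ne', Int.natCast_ne_zero.2 p4.ne', p5⟩
      exact ⟨q, h1, fun i hi => h2 ⟨i, hi⟩⟩
    · obtain ⟨q, h1, h2⟩ := Pool.Agent.FS.H31Q.real_necessary (ι := {i // a i + b i ≠ 0}) n
        (fun i => a i) (fun i => b i) (fun i => c i) (fun i => (habc i).1)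
        (fun i => (habc i).2.1) (fun i => (habc i).2.2) (fun i => i.2) fun r χ => by
          obtain ⟨x, y, w, z, col, h1⟩ := h r χ
          exact ⟨fun i => x i, fun i => y i, fun i => w i, fun i => z i, col, fun i => h1 i⟩
      exact ⟨q, h1, fun i hi => h2 ⟨i, hi⟩⟩
  · rintro ⟨h, q, hq0, hq⟩ r χ
    exact Pool.Agent.Lib.MP_a5a405_co.PR.G.suff_pos hn a b c (fun i => (habc i).1)
      (fun i => (habc i).2.1) (fun i => (habc i).2.2) h hq0 hq χ

end Pool.Agent.Variants.MP_a5a405_co.PositiveCriterion
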